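import Pool.Agent.H95.GN.Defs

/-!
# The explicit description of the genera above the threshold

For `n` fixed and `d` large, a smooth nondegenerate curve of degree `d` in `P^n` whose genus is
above `d ^ 2 / (2 thr n) + O(d)` lies on a rational or ruled surface of degree less than `thr n`;
the following are the resulting pairs `(d, g)`.
-/

namespace Pool.Agent.H95.GX

open Pool.Agent.H95.GN

/-- curves of type `(a', b')` on the quadric `P¹ × P¹` embedded by `O(a, b)` with degree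
`2 a b < thr n` in a space of dimension `(a + 1) (b + 1) - 1 ≥ n` -/
def Quadric (n d g : ℕ) : Prop :=
  ∃ a b a' b' : ℕ, 0 < a ∧ 0 < b ∧ 0 < a' ∧ 0 < b' ∧ 2 * a * b < thr n ∧
    n + 1 ≤ (a + 1) * (b + 1) ∧ d = a * b' + a' * b ∧ g = (a' - 1) * (b' - 1)

/-- curves in `|y L - ∑ c_i E_i|` on the plane blown up in `r ≤ 2` points, embedded by
`x L - ∑ m_i E_i` with degree less than `thr n` in a space of dimension at least `n` -/
def Rational (n d g : ℕ) : Prop :=
  ∃ r : ℕ, r ≤ 2 ∧ ∃ (x y : ℤ) (m c : Fin r → ℤ),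
    (∀ i, 0 < m i) ∧ ∑ i, m i < x ∧ (∀ i, 0 ≤ c i) ∧ ∑ i, c i ≤ y ∧ 0 < y ^ 2 - ∑ i, c i ^ 2 ∧
    x ^ 2 - ∑ i, m i ^ 2 < thr n ∧
    2 * ((n : ℤ) + 1) ≤ (x + 1) * (x + 2) - ∑ i, m i * (m i + 1) ∧
    (d : ℤ) = x * y - ∑ i, m i * c i ∧
    2 * (g : ℤ) - 2 = y * (y - 3) - ∑ i, c i * (c i - 1)

/-- curves meeting the lines of a scroll of degree `s < thr n` over a curve of genus `p ≥ 1` in
`a` points: the scroll comes from a semistable bundle (`n + 2 p ≤ s + 1`), from the sum of a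
special and a non-special line bundle, or it is a cone (`s + 1 = n + p`) -/
def Irrational (n d g : ℕ) : Prop :=
  ∃ s p a : ℕ, s < thr n ∧ 1 ≤ p ∧
    2 * (g : ℤ) - 2 = 2 * a * d - a ^ 2 * s - 2 * d + (s + 2 * p - 2) * a ∧
    (n + 2 * p ≤ s + 1 ∨
     (n + p < s + 1 ∧ s + 1 < n + 2 * p ∧ a * (2 * n + 2 * p - 2 - s) ≤ d) ∨
     (s + 1 = n + p ∧ (d = a * s ∨ d = a * s + 1)))

/-- the genera above the threshold -/
def Above (n d g : ℕ) : Prop :=
  Quadric n d g ∨ Rational n d g ∨ Irrational n d g ∨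
    (n % 3 = 0 ∧ 6 ≤ n ∧ Tern (n / 3 - 1) d g)

end Pool.Agent.H95.GX
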