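import Pool.Agent.H95.GX.Defs

/-!
# From Hirzebruch surfaces and their blow ups to the standard surfaces: numerical part
-/

namespace Pool.Agent.H95.GX

open Pool.Agent.H95.GN

lemma rat0 (n d g : ℕ) (x y : ℤ) (hx : 0 < x) (hy : 0 < y) (ht : x ^ 2 < thr n)
    (hn : 2 * ((n : ℤ) + 1) ≤ (x + 1) * (x + 2)) (hd : (d : ℤ) = x * y)
    (hg : 2 * (g : ℤ) - 2 = y * (y - 3)) : Rational n d g := by
  refine ⟨0, by norm_num, x, y, ![], ![], fun i => i.elim0, by simpa using hx,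
    fun i => i.elim0, by simpa using hy.le, by simpa using pow_pos hy 2, by simpa using ht,
    by simpa using hn, by simpa using hd, by simpa using hg⟩

lemma rat1 (n d g : ℕ) (x y m c : ℤ) (hm : 0 < m) (hx : m < x) (hc : 0 ≤ c) (hy : c ≤ y)
    (hcc : 0 < y ^ 2 - c ^ 2) (ht : x ^ 2 - m ^ 2 < thr n)
    (hn : 2 * ((n : ℤ) + 1) ≤ (x + 1) * (x + 2) - m * (m + 1)) (hd : (d : ℤ) = x * y - m * c)
    (hg : 2 * (g : ℤ) - 2 = y * (y - 3) - c * (c - 1)) : Rational n d g := by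
  refine ⟨1, by norm_num, x, y, ![m], ![c], ?_, by simpa using hx, ?_, by simpa using hy,
    by simpa using hcc, by simpa using ht, by simpa using hn, by simpa using hd,
    by simpa using hg⟩
  · intro i; fin_cases i; simpa using hm
  · intro i; fin_cases i; simpa using hc

lemma rat2 (n d g : ℕ) (x y m₁ m₂ c₁ c₂ : ℤ) (hm₁ : 0 < m₁) (hm₂ : 0 < m₂) (hx : m₁ + m₂ < x)
    (hc₁ : 0 ≤ c₁) (hc₂ : 0 ≤ c₂) (hy : c₁ + c₂ ≤ y)
    (hcc : 0 < y ^ 2 - (c₁ ^ 2 + c₂ ^ 2)) (ht : x ^ 2 - (m₁ ^ 2 + m₂ ^ 2) < thr n)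
    (hn : 2 * ((n : ℤ) + 1) ≤ (x + 1) * (x + 2) - (m₁ * (m₁ + 1) + m₂ * (m₂ + 1)))
    (hd : (d : ℤ) = x * y - (m₁ * c₁ + m₂ * c₂))
    (hg : 2 * (g : ℤ) - 2 = y * (y - 3) - (c₁ * (c₁ - 1) + c₂ * (c₂ - 1))) :
    Rational n d g := by
  refine ⟨2, le_rfl, x, y, ![m₁, m₂], ![c₁, c₂], ?_, by simpa [Fin.sum_univ_two] using hx, ?_,
    by simpa [Fin.sum_univ_two] using hy, by simpa [Fin.sum_univ_two] using hcc,
    by simpa [Fin.sum_univ_two] using ht, by simpa [Fin.sum_univ_two] using hn,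
    by simpa [Fin.sum_univ_two] using hd, by simpa [Fin.sum_univ_two] using hg⟩
  · intro i; fin_cases i
    · simpa using hm₁
    · simpa using hm₂
  · intro i; fin_cases i
    · simpa using hc₁
    · simpa using hc₂

/-- Hirzebruch surfaces: `a = H · f`, `μ = H · s`, `c = C · f`, `ν = C · s` -/
lemma num8 (n d g e : ℕ) (a μ c ν : ℤ) (hg2 : 2 ≤ g) (ha : 0 < a) (hμ : 0 ≤ μ)
    (he1 : e = 1 → 0 < μ) (hc : 0 ≤ c) (hν : 0 ≤ ν) (hpos : 0 < e * a ^ 2 + 2 * a * μ)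
    (ht : e * a ^ 2 + 2 * a * μ < thr n)
    (hn : 2 * ((n : ℤ) + 1) ≤ e * a ^ 2 + 2 * a * μ + ((e : ℤ) + 2) * a + 2 * μ + 2)
    (hd : (d : ℤ) = e * a * c + a * ν + c * μ)
    (hg : 2 * (g : ℤ) - 2 = e * c ^ 2 + 2 * c * ν - ((e : ℤ) + 2) * c - 2 * ν) :
    Quadric n d g ∨ Rational n d g := by
  have hg2' : (2 : ℤ) ≤ g := by exact_mod_cast hg2
  have hc0 : 0 < c := by
    rcases hc.lt_or_eq with h | h
    · exact h
    · exfalso
      rw [← h] at hg
      nlinarith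
  obtain ⟨k, hk | hk⟩ := Nat.even_or_odd' e
  · -- even
    left
    have hke : (e : ℤ) = 2 * k := by rw [hk]; push_cast; ring
    have hk0 : (0 : ℤ) ≤ k := by positivity
    have hka : 0 ≤ (k : ℤ) * a := mul_nonneg hk0 ha.le
    have hkc : 0 ≤ (k : ℤ) * c := mul_nonneg hk0 hc0.le
    rw [hke] at hpos ht hn hd hg
    set b : ℤ := μ + k * a with hb
    set w : ℤ := ν + k * c with hw
    have hb0 : 0 < b := by
      have h1 : 2 * (k : ℤ) * a ^ 2 + 2 * a * μ = 2 * a * (μ + k * a) := by ring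
      rw [h1, ← hb] at hpos
      exact (mul_pos_iff_of_pos_left (by linarith : (0:ℤ) < 2 * a)).mp hpos
    have hg' : (g : ℤ) = (c - 1) * (w - 1) := by
      have : 2 * (g : ℤ) = 2 * ((c - 1) * (w - 1)) := by rw [hw]; linarith
      linarith
    have hw0 : 0 < w := by
      by_contra hcon
      push Not at hcon
      have h0 : w = 0 := le_antisymm hcon (by linarith)
      rw [h0] at hg'
      linarith
    obtain ⟨a', rfl⟩ : ∃ A : ℕ, a = A := ⟨a.toNat, (Int.toNat_of_nonneg ha.le).symm⟩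
    obtain ⟨b', hb'⟩ : ∃ A : ℕ, b = A := ⟨b.toNat, (Int.toNat_of_nonneg hb0.le).symm⟩
    obtain ⟨c', rfl⟩ : ∃ A : ℕ, c = A := ⟨c.toNat, (Int.toNat_of_nonneg hc).symm⟩
    obtain ⟨w', hw'⟩ : ∃ A : ℕ, w = A := ⟨w.toNat, (Int.toNat_of_nonneg hw0.le).symm⟩
    refine ⟨a', b', c', w', by exact_mod_cast ha, by rw [hb'] at hb0; exact_mod_cast hb0,
      by exact_mod_cast hc0, by rw [hw'] at hw0; exact_mod_cast hw0, ?_, ?_, ?_, ?_⟩
    · have : (2 * a' * b' : ℤ) < thr n := by rw [← hb', hb]; linarith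
      exact_mod_cast this
    · have : ((n : ℤ) + 1) ≤ (a' + 1) * (b' + 1) := by rw [← hb', hb]; linarith
      exact_mod_cast this
    · have : (d : ℤ) = a' * w' + c' * b' := by rw [← hb', ← hw', hb, hw]; linarith
      exact_mod_cast this
    · have h1 : 1 ≤ c' := by exact_mod_cast hc0
      have h2 : 1 ≤ w' := by rw [hw'] at hw0; exact_mod_cast hw0
      zify [h1, h2]
      rw [hg', hw']
  · -- odd
    right
    have hke : (e : ℤ) = 2 * k + 1 := by rw [hk]; push_cast; ring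
    have hk0 : (0 : ℤ) ≤ k := by positivity
    have hka : 0 ≤ (k : ℤ) * a := mul_nonneg hk0 ha.le
    have hkc : 0 ≤ (k : ℤ) * c := mul_nonneg hk0 hc0.le
    have hm : 0 < μ + k * a := by
      rcases Nat.eq_zero_or_pos k with h0 | h0
      · have := he1 (by omega)
        linarith
      · have : (0 : ℤ) < k := by exact_mod_cast h0
        have := mul_pos this ha
        linarith
    rw [hke] at hpos ht hn hd hg
    refine rat1 n d g (μ + k * a + a) (ν + k * c + c) (μ + k * a) (ν + k * c) hm (by linarith)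
      (by linarith) (by linarith) ?_ ?_ ?_ ?_ ?_
    · have h1 : (ν + k * c + c) ^ 2 - (ν + k * c) ^ 2 = c * (c + 2 * (ν + k * c)) := by ring
      rw [h1]
      exact mul_pos hc0 (by linarith)
    · linarith
    · linarith
    · linarith
    · linarith

/-- Blown up Hirzebruch surfaces: `a = H · f`, `μ = H · s`, `ε = H · E`, `c = C · f`,
`ν = C · s`, `γ = C · E` -/
lemma num7 (n d g e : ℕ) (a μ ε c ν γ : ℤ) (hg2 : 2 ≤ g) (he : 1 ≤ e) (hε : 0 < ε) (hεa : ε < a)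
    (hμ : 0 ≤ μ) (he1 : e = 1 → 0 < μ) (hγ : 0 ≤ γ) (hγc : γ ≤ c) (hν : 0 ≤ ν)
    (ht : e * a ^ 2 + 2 * a * μ - ε ^ 2 < thr n)
    (hn : 2 * ((n : ℤ) + 1) ≤
      e * a ^ 2 + 2 * a * μ - ε ^ 2 + ((e : ℤ) + 2) * a + 2 * μ - ε + 2)
    (hd : (d : ℤ) = e * a * c + a * ν + c * μ - ε * γ)
    (hg : 2 * (g : ℤ) - 2 = e * c ^ 2 + 2 * c * ν - γ ^ 2 - ((e : ℤ) + 2) * c - 2 * ν + γ) :
    Rational n d g := by
  have hg2' : (2 : ℤ) ≤ g := by exact_mod_cast hg2
  have ha : 0 < a := by linarith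
  have hc : 0 ≤ c := by linarith
  have hcsq : 0 < e * c ^ 2 + 2 * c * ν - γ ^ 2 := by
    have h1 : 0 ≤ ((e : ℤ) + 2) * c := by positivity
    have h2 : c ≤ ((e : ℤ) + 2) * c := by
      have : (0 : ℤ) ≤ (e : ℤ) * c := by positivity
      linarith
    linarith
  obtain ⟨k, hk | hk⟩ := Nat.even_or_odd' e
  · -- even
    have hke : (e : ℤ) = 2 * k := by rw [hk]; push_cast; ring
    have hk1 : 1 ≤ k := by omega
    obtain ⟨j, rfl⟩ : ∃ j, k = j + 1 := ⟨k - 1, by omega⟩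
    have hj0 : (0 : ℤ) ≤ j := by positivity
    have hja : 0 ≤ (j : ℤ) * a := mul_nonneg hj0 ha.le
    have hjc : 0 ≤ (j : ℤ) * c := mul_nonneg hj0 hc
    push_cast at hke
    rw [hke] at ht hn hd hg hcsq
    refine rat2 n d g (μ + (j + 1) * a - ε + a) (ν + (j + 1) * c - γ + c)
      (μ + (j + 1) * a - ε) (a - ε) (ν + (j + 1) * c - γ) (c - γ) (by linarith) (by linarith)
      (by linarith) (by linarith) (by linarith) (by linarith) ?_ ?_ ?_ ?_ ?_
    · linarith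
    · linarith
    · linarith
    · linarith
    · linarith
  · -- odd
    have hke : (e : ℤ) = 2 * k + 1 := by rw [hk]; push_cast; ring
    have hk0 : (0 : ℤ) ≤ k := by positivity
    have hka : 0 ≤ (k : ℤ) * a := mul_nonneg hk0 ha.le
    have hkc : 0 ≤ (k : ℤ) * c := mul_nonneg hk0 hc
    have hm : 0 < μ + k * a := by
      rcases Nat.eq_zero_or_pos k with h0 | h0
      · have := he1 (by omega)
        linarith
      · have : (0 : ℤ) < k := by exact_mod_cast h0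
        have := mul_pos this ha
        linarith
    rw [hke] at ht hn hd hg hcsq
    refine rat2 n d g (μ + k * a + a) (ν + k * c + c) (μ + k * a) ε (ν + k * c) γ hm hε
      (by linarith) (by linarith) hγ (by linarith) ?_ ?_ ?_ ?_ ?_
    · linarith
    · linarith
    · linarith
    · linarith
    · linarith

end Pool.Agent.H95.GX
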