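import Pool.Agent.H95.GX.Facts
import Pool.Agent.H95.GX.Num
import Pool.Agent.H95.GN.Class

/-!
# Curves on rational surfaces of small degree
-/

namespace Pool.Agent.H95.GX

open Pool.Agent.H95.GN (thr Tern tern_of_coords fibre_class G)

section basics

variable {T : Surfaces} {x : T.X}

lemma dot_zero_left (a : T.Pic x) : T.dot x 0 a = 0 := by
  have := T.dot_add x 0 0 a
  rw [add_zero] at this
  linarith

lemma dot_neg (a b : T.Pic x) : T.dot x (-a) b = -T.dot x a b := by
  have := T.dot_add x (-a) a b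
  rw [neg_add_cancel, dot_zero_left] at this
  linarith

lemma dot_nsmul (k : ℕ) (a b : T.Pic x) : T.dot x (k • a) b = k * T.dot x a b := by
  induction k with
  | zero => simp [dot_zero_left]
  | succ k ih => rw [succ_nsmul, T.dot_add, ih]; push_cast; ring

lemma dot_smul (k : ℤ) (a b : T.Pic x) : T.dot x (k • a) b = k * T.dot x a b := by
  obtain ⟨m, rfl | rfl⟩ := Int.eq_nat_or_neg k
  · rw [natCast_zsmul, dot_nsmul]
  · rw [neg_smul, dot_neg, natCast_zsmul, dot_nsmul]; ring

lemma dot_smul_right (k : ℤ) (a b : T.Pic x) : T.dot x a (k • b) = k * T.dot x a b := by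
  rw [T.dot_comm, dot_smul, T.dot_comm x b a]

lemma dot_add_right (a b c : T.Pic x) : T.dot x a (b + c) = T.dot x a b + T.dot x a c := by
  rw [T.dot_comm, T.dot_add, T.dot_comm x b a, T.dot_comm x c a]

lemma dot_sub_right (a b c : T.Pic x) : T.dot x a (b - c) = T.dot x a b - T.dot x a c := by
  rw [sub_eq_add_neg, dot_add_right, T.dot_comm x a (-c), dot_neg, T.dot_comm x c a]; ring

end basics

/-- Curves on the plane, on Hirzebruch surfaces and on their blow ups in a point. -/
theorem rational_nec (T : Surfaces) (x : T.X) (H C : T.Pic x) (n s d g : ℕ)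
    (hnef : H ∈ T.Nef x) (hs : T.dot x H H = s) (hs0 : 0 < s) (hst : s < thr n)
    (hE : ∀ E ∈ T.Exc x, 0 < T.dot x H E)
    (hchi : 2 * ((n : ℤ) + 1) ≤ T.dot x H H - T.dot x (T.K x) H + 2)
    (hC : C ∈ T.Cur x) (hd : T.dot x H C = d)
    (hg : T.dot x C C + T.dot x (T.K x) C = 2 * (g : ℤ) - 2) (hsd : s ^ 2 < d) (hg2 : 2 ≤ g)
    (hKH : T.dot x (T.K x) H < 0) (hK6 : 6 ≤ T.dot x (T.K x) (T.K x)) :
    Quadric n d g ∨ Rational n d g ∨ T.dot x (T.K x) (T.K x) = 6 := by
  have hd0 : (0 : ℤ) < d := by exact_mod_cast (by omega : 0 < d)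
  have hss : s ≤ s ^ 2 := by nlinarith
  have hsd' : (s : ℤ) < d := by exact_mod_cast (by omega : s < d)
  have hs0' : (0 : ℤ) < s := by exact_mod_cast hs0
  have hst' : (s : ℤ) < thr n := by exact_mod_cast hst
  have hCH : T.dot x C H = d := by rw [T.dot_comm]; exact hd
  rcases T.rational x H hnef hKH hK6 with h9 | h8 | h7 | h6
  · -- the plane
    obtain ⟨-, L, hL, hK, hall⟩ := h9
    obtain ⟨k, hk⟩ := hall H
    obtain ⟨c, hc⟩ := hall C
    have e1 : T.dot x H H = k ^ 2 := by rw [hk, dot_smul, dot_smul_right, hL]; ring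
    have e2 : T.dot x (T.K x) H = -3 * k := by
      rw [hK, hk, dot_smul, dot_smul_right, hL]; ring
    have e3 : T.dot x H C = k * c := by rw [hk, hc, dot_smul, dot_smul_right, hL]; ring
    have hk0 : 0 < k := by rw [e2] at hKH; linarith
    have hc0 : 0 < c := by
      have : 0 < k * c := by rw [← e3, hd]; exact hd0
      exact (mul_pos_iff_of_pos_left hk0).mp this
    refine Or.inr (Or.inl (rat0 n d g k c hk0 hc0 ?_ ?_ ?_ ?_))
    · rw [← e1, hs]; exact hst'
    · rw [e1, e2] at hchi; linarith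
    · rw [← hd, e3]
    · rw [← hg, hK, hc]
      simp only [dot_smul, dot_smul_right, hL]
      ring
  · -- Hirzebruch surfaces
    obtain ⟨-, e, σ, f, hσ, hf, he1, hss', hsf, hff, hK, hall⟩ := h8
    obtain ⟨h1, h2, hH⟩ := hall H
    obtain ⟨c1, c2, hCc⟩ := hall C
    have hfs : T.dot x f σ = 1 := by rw [T.dot_comm]; exact hsf
    have i1 : T.dot x H f = h1 := by
      rw [hH, T.dot_add, dot_smul, dot_smul, hsf, hff]; ring
    have i2 : T.dot x H σ = h2 - e * h1 := by
      rw [hH, T.dot_add, dot_smul, dot_smul, hss', hfs]; ring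
    have i3 : T.dot x C f = c1 := by
      rw [hCc, T.dot_add, dot_smul, dot_smul, hsf, hff]; ring
    have i4 : T.dot x C σ = c2 - e * c1 := by
      rw [hCc, T.dot_add, dot_smul, dot_smul, hss', hfs]; ring
    have a0 : 0 ≤ h1 := by rw [← i1]; exact T.nef_mul x H hnef f hf
    have μ0 : 0 ≤ h2 - e * h1 := by rw [← i2]; exact T.nef_cur x H hnef σ hσ
    have HH : T.dot x H H = e * h1 ^ 2 + 2 * h1 * (h2 - e * h1) := by
      rw [hH]
      simp only [T.dot_add, dot_add_right, dot_smul, dot_smul_right, hss', hsf, hff, hfs]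
      ring
    have ha : 0 < h1 := by
      rcases a0.lt_or_eq with h | h
      · exact h
      · exfalso
        rw [hs, ← h] at HH
        simp at HH
        omega
    have hpos : 0 < e * h1 ^ 2 + 2 * h1 * (h2 - e * h1) := by rw [← HH, hs]; exact hs0'
    have c0 : 0 ≤ c1 := by rw [← i3, T.dot_comm]; exact T.nef_cur x f hf C hC
    have hne : C ≠ σ := by
      intro h
      rw [h, i2] at hd
      have hle : h2 - e * h1 ≤ s := by
        rw [← hs, HH]
        have : 0 ≤ (e : ℤ) * h1 ^ 2 := by positivity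
        nlinarith
      linarith
    have ν0 : 0 ≤ c2 - e * c1 := by rw [← i4]; exact T.cur_cur x C hC σ hσ hne
    have KH : T.dot x (T.K x) H = -(((e : ℤ) + 2) * h1) - 2 * (h2 - e * h1) := by
      rw [hK, hH]
      simp only [T.dot_add, dot_add_right, dot_smul, dot_smul_right, hss', hsf, hff, hfs]
      ring
    have := num8 n d g e h1 (h2 - e * h1) c1 (c2 - e * c1) hg2 ha μ0
      (fun h => by rw [← i2]; exact hE σ (he1 h)) c0 ν0 hpos ?_ ?_ ?_ ?_
    · rcases this with h | h
      · exact Or.inl h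
      · exact Or.inr (Or.inl h)
    · rw [← HH, hs]; exact hst'
    · rw [HH, KH] at hchi; linarith
    · rw [← hd, hH, hCc]
      simp only [T.dot_add, dot_add_right, dot_smul, dot_smul_right, hss', hsf, hff, hfs]
      ring
    · rw [← hg, hK, hCc]
      simp only [T.dot_add, dot_add_right, dot_smul, dot_smul_right, hss', hsf, hff, hfs]
      ring
  · -- blown up Hirzebruch surfaces
    obtain ⟨-, e, σ, f, E, he, hσ, he1, hEx, hfE', hss', hsf, hff, hEE, hEs, hEf, hK, hall⟩ := h7
    obtain ⟨h1, h2, h3, hH⟩ := hall H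
    obtain ⟨c1, c2, c3, hCc⟩ := hall C
    have hfs : T.dot x f σ = 1 := by rw [T.dot_comm]; exact hsf
    have hsE : T.dot x σ E = 0 := by rw [T.dot_comm]; exact hEs
    have hfE : T.dot x f E = 0 := by rw [T.dot_comm]; exact hEf
    have i1 : T.dot x H f = h1 := by
      rw [hH]; simp only [T.dot_add, dot_smul, hsf, hff, hEf]; ring
    have i2 : T.dot x H σ = h2 - e * h1 := by
      rw [hH]; simp only [T.dot_add, dot_smul, hss', hfs, hEs]; ring
    have i3 : T.dot x C f = c1 := by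
      rw [hCc]; simp only [T.dot_add, dot_smul, hsf, hff, hEf]; ring
    have i4 : T.dot x C σ = c2 - e * c1 := by
      rw [hCc]; simp only [T.dot_add, dot_smul, hss', hfs, hEs]; ring
    have i5 : T.dot x H E = -h3 := by
      rw [hH]; simp only [T.dot_add, dot_smul, hsE, hfE, hEE]; ring
    have i6 : T.dot x C E = -c3 := by
      rw [hCc]; simp only [T.dot_add, dot_smul, hsE, hfE, hEE]; ring
    have ε0 : 0 < -h3 := by rw [← i5]; exact hE E hEx
    have εa : -h3 < h1 := by
      have := hE _ hfE'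
      rw [dot_sub_right, i1, i5] at this
      linarith
    have μ0 : 0 ≤ h2 - e * h1 := by rw [← i2]; exact T.nef_cur x H hnef σ hσ
    have HH : T.dot x H H = e * h1 ^ 2 + 2 * h1 * (h2 - e * h1) - (-h3) ^ 2 := by
      rw [hH]
      simp only [T.dot_add, dot_add_right, dot_smul, dot_smul_right, hss', hsf, hff, hfs, hEE,
        hEs, hEf, hsE, hfE]
      ring
    have ha : 0 < h1 := by linarith
    have he' : (1 : ℤ) ≤ e := by exact_mod_cast he
    have hbd : (h2 - e * h1) + h1 ≤ s := by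
      rw [← hs, HH]
      have e1 : h1 ^ 2 ≤ e * h1 ^ 2 := by nlinarith [sq_nonneg h1]
      have e2 : (h2 - e * h1) ≤ 2 * h1 * (h2 - e * h1) := by nlinarith
      have e3 : h1 ≤ h1 ^ 2 - (-h3) ^ 2 := by
        have : h1 ^ 2 - (-h3) ^ 2 = (h1 - -h3) * (h1 + -h3) := by ring
        rw [this]
        nlinarith
      linarith
    have hneσ : C ≠ σ := by
      intro h
      rw [h, i2] at hd
      linarith
    have hneE : C ≠ E := by
      intro h
      rw [h, i5] at hd
      linarith
    have hnef' : C ≠ f - E := by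
      intro h
      rw [h, dot_sub_right, i1, i5] at hd
      linarith
    have ν0 : 0 ≤ c2 - e * c1 := by rw [← i4]; exact T.cur_cur x C hC σ hσ hneσ
    have γ0 : 0 ≤ -c3 := by
      rw [← i6]; exact T.cur_cur x C hC E (T.exc_cur x E hEx) hneE
    have γc : -c3 ≤ c1 := by
      have := T.cur_cur x C hC (f - E) (T.exc_cur x _ hfE') hnef'
      rw [dot_sub_right, i3, i6] at this
      linarith
    have KH : T.dot x (T.K x) H = -(((e : ℤ) + 2) * h1) - 2 * (h2 - e * h1) - h3 := by
      rw [hK, hH]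
      simp only [T.dot_add, dot_add_right, dot_smul, dot_smul_right, hss', hsf, hff, hfs, hEE,
        hEs, hEf, hsE, hfE]
      ring
    refine Or.inr (Or.inl (num7 n d g e h1 (h2 - e * h1) (-h3) c1 (c2 - e * c1) (-c3) hg2 he ε0
      εa μ0 (fun h => by rw [← i2]; exact hE σ (he1 h)) γ0 γc ν0 ?_ ?_ ?_ ?_))
    · rw [← HH, hs]; exact hst'
    · rw [HH, KH] at hchi; linarith
    · rw [← hd, hH, hCc]
      simp only [T.dot_add, dot_add_right, dot_smul, dot_smul_right, hss', hsf, hff, hfs, hEE,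
        hEs, hEf, hsE, hfE]
      ring
    · rw [← hg, hK, hCc]
      simp only [T.dot_add, dot_add_right, dot_smul, dot_smul_right, hss', hsf, hff, hfs, hEE,
        hEs, hEf, hsE, hfE]
      ring
  · exact Or.inr (Or.inr h6.1)

/-- The case `K ^ 2 = 6`. -/
theorem six_nec (T : Surfaces) (x : T.X) (H C : T.Pic x) (d g b : ℕ)
    (hnef : H ∈ T.Nef x) (hpos : 0 < T.dot x H H) (hE : ∀ E ∈ T.Exc x, 0 < T.dot x H E)
    (hd : T.dot x H C = d) (hg : T.dot x C C + T.dot x (T.K x) C = 2 * (g : ℤ) - 2)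
    (hHb : T.dot x H H = 4 * b + 2) (hKHb : T.dot x (T.K x) H = -2 * b - 4)
    (hK6 : T.dot x (T.K x) (T.K x) = 6) (hadj : T.K x + H ∈ T.Nef x) : Tern b d g := by
  have hKHneg : T.dot x (T.K x) H < 0 := by
    rw [hKHb]
    have : (0 : ℤ) ≤ b := by positivity
    linarith
  rcases T.rational x H hnef hKHneg (by rw [hK6]) with h9 | h8 | h7 | h6
  · exfalso; have := h9.1; rw [hK6] at this; norm_num at this
  · exfalso; have := h8.1; rw [hK6] at this; norm_num at this
  · exfalso; have := h7.1; rw [hK6] at this; norm_num at this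
  obtain ⟨-, L, E₀, E₁, E₂, hLL, h00, h11, h22, hL0, hL1, hL2, h01, h02, h12, hK, hall⟩ := h6
  have h0L : T.dot x E₀ L = 0 := by rw [T.dot_comm]; exact hL0
  have h1L : T.dot x E₁ L = 0 := by rw [T.dot_comm]; exact hL1
  have h2L : T.dot x E₂ L = 0 := by rw [T.dot_comm]; exact hL2
  have h10 : T.dot x E₁ E₀ = 0 := by rw [T.dot_comm]; exact h01
  have h20 : T.dot x E₂ E₀ = 0 := by rw [T.dot_comm]; exact h02
  have h21 : T.dot x E₂ E₁ = 0 := by rw [T.dot_comm]; exact h12
  have hsqz : T.dot x (T.K x + H) (T.K x + H) = 0 := by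
    rw [T.dot_add, dot_add_right, dot_add_right, T.dot_comm x H (T.K x), hKHb, hK6, hHb]
    ring
  obtain ⟨α, β₀, β₁, β₂, hCc⟩ := hall C
  have hgC : T.dot x C C + T.dot x (T.K x) C = α ^ 2 - β₀ ^ 2 - β₁ ^ 2 - β₂ ^ 2 - 3 * α -
      β₀ - β₁ - β₂ := by
    rw [hK, hCc]
    simp only [T.dot_add, dot_add_right, dot_smul, dot_smul_right, hLL, h00, h11, h22, hL0,
      hL1, hL2, h01, h02, h12, h0L, h1L, h2L, h10, h20, h21]
    ring
  have hKC : T.dot x (T.K x) C = -3 * α - β₀ - β₁ - β₂ := by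
    rw [hK, hCc]
    simp only [T.dot_add, dot_add_right, dot_smul, dot_smul_right, hLL, h00, h11, h22, hL0,
      hL1, hL2, h01, h02, h12, h0L, h1L, h2L, h10, h20, h21]
    ring
  have hHC : (d : ℤ) = T.dot x (T.K x + H) C - (-3 * α - β₀ - β₁ - β₂) := by
    have h1 : T.dot x H C = T.dot x (T.K x + H) C - T.dot x (T.K x) C := by
      rw [T.dot_add]; ring
    rw [← hd, h1, hKC]
  rcases T.conic x H hnef hpos hE hKHneg (by rw [hK6]) hadj hsqz with h0 | ⟨F, m, hFF, hKF, hm⟩
  · -- `H = -K`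
    have hb2 : (b : ℤ) = 1 := by
      have : T.dot x (T.K x + H) (T.K x) = 0 := by rw [h0, dot_zero_left]
      rw [T.dot_add, hK6, T.dot_comm x H, hKHb] at this
      linarith
    rw [h0, dot_zero_left] at hHC
    refine tern_of_coords b d g α (-β₀) (-β₁) (-β₂) ?_ ?_
    · rw [hb2, hHC]; ring
    · rw [← hg, hgC]; ring
  · obtain ⟨a, c₀, c₁, c₂, hFc⟩ := hall F
    have f1 : a ^ 2 - c₀ ^ 2 - c₁ ^ 2 - c₂ ^ 2 = 0 := by
      rw [← hFF, hFc]
      simp only [T.dot_add, dot_add_right, dot_smul, dot_smul_right, hLL, h00, h11, h22, hL0,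
        hL1, hL2, h01, h02, h12, h0L, h1L, h2L, h10, h20, h21]
      ring
    have f2 : -3 * a - (c₀ + c₁ + c₂) = -2 := by
      rw [← hKF, hFc, hK]
      simp only [T.dot_add, dot_add_right, dot_smul, dot_smul_right, hLL, h00, h11, h22, hL0,
        hL1, hL2, h01, h02, h12, h0L, h1L, h2L, h10, h20, h21]
      ring
    have hmb : m = b - 1 := by
      have : T.dot x (T.K x + H) (T.K x) = -2 * m := by
        rw [hm, dot_smul, T.dot_comm, hKF]; ring
      rw [T.dot_add, hK6, T.dot_comm x H, hKHb] at this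
      linarith
    have hFC : T.dot x F C = a * α - c₀ * β₀ - c₁ * β₁ - c₂ * β₂ := by
      rw [hFc, hCc]
      simp only [T.dot_add, dot_add_right, dot_smul, dot_smul_right, hLL, h00, h11, h22, hL0,
        hL1, hL2, h01, h02, h12, h0L, h1L, h2L, h10, h20, h21]
      ring
    rw [hm, dot_smul, hFC, hmb] at hHC
    obtain ⟨ha, hc⟩ := fibre_class a c₀ c₁ c₂ f1 f2
    rcases hc with ⟨e0, e1, e2⟩ | ⟨e0, e1, e2⟩ | ⟨e0, e1, e2⟩
    · rw [ha, e0, e1, e2] at hHC
      refine tern_of_coords b d g α (-β₀) (-β₁) (-β₂) ?_ ?_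
      · rw [hHC]; ring
      · rw [← hg, hgC]; ring
    · rw [ha, e0, e1, e2] at hHC
      refine tern_of_coords b d g α (-β₁) (-β₀) (-β₂) ?_ ?_
      · rw [hHC]; ring
      · rw [← hg, hgC]; ring
    · rw [ha, e0, e1, e2] at hHC
      refine tern_of_coords b d g α (-β₂) (-β₀) (-β₁) ?_ ?_
      · rw [hHC]; ring
      · rw [← hg, hgC]; ring

end Pool.Agent.H95.GX
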